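import Pool.Agent.Helper19.HN.St

/-! # HN, RK: the rank function of the order of the ultrapower -/

namespace Pool.Agent.Helper73.HN.RK

open Ordinal Cardinal ZFSet Order Pool.Agent.Helper73.HODC Pool.Agent.Helper73.HM
open Pool.Agent.Helper73.HE Pool.Agent.Helper73.HU Pool.Agent.Helper19.HN

/-- there is no descending sequence -/
theorem no_desc {τ : Ordinal.{0}} {A : Set Ordinal.{0}} (hA : Atm τ A) (x : ℕ → ZFSet.{0})
    (hx : ∀ n, x n ∈ hodPow τ) (h : ∀ n, Prec τ A (x (n + 1)) (x n)) : False := by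
  have h1 : AE τ A (fun g => ∀ n : ℕ, Less (cut (x (n + 1)) g) (cut (x n) g)) :=
    AE_forallS hA.cof (by rw [Cardinal.mk_nat]; exact hA.cof) h
  obtain ⟨a, -, -, ha⟩ := hA.exists h1
  obtain ⟨y, hy, ⟨n, hn⟩, hmin⟩ := lt_min (g := a) (Q := fun y => ∃ n, y = cut (x n) a)
    ⟨cut (x 0) a, cut_mem (hx 0) a, 0, rfl⟩
  refine hmin (cut (x (n + 1)) a) ⟨cut_mem (hx (n + 1)) a, fun _ => ?_⟩ ⟨n + 1, rfl⟩
  rw [hn]
  exact ha n

theorem rk : StRK := by
  intro τ A hA
  let T : Type 1 := {x : ZFSet.{0} // x ∈ hodPow τ}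
  have : _root_.Small.{0} T := ZFSet.small_coe (hodPow τ)
  let e : T ≃ Shrink.{0} T := equivShrink T
  let r : Shrink.{0} T → Shrink.{0} T → Prop := fun a b => Prec τ A (e.symm a).1 (e.symm b).1
  have hwf : IsWellFounded (Shrink.{0} T) r := by
    refine ⟨?_⟩
    rw [wellFounded_iff_isEmpty_descending_chain]
    refine ⟨fun s => ?_⟩
    obtain ⟨f, hf⟩ := s
    exact no_desc hA (fun n => (e.symm (f n)).1) (fun n => (e.symm (f n)).2) hf
  classical
  let R : ZFSet.{0} → Ordinal.{0} := fun x =>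
    if hx : x ∈ hodPow τ then IsWellFounded.rank r (e ⟨x, hx⟩) else 0
  have key : ∀ x ∈ hodPow τ, ∀ y ∈ hodPow τ, Prec τ A x y → R x < R y := by
    intro x hx y hy hxy
    have h1 : r (e ⟨x, hx⟩) (e ⟨y, hy⟩) := by
      change Prec τ A (e.symm (e ⟨x, hx⟩)).1 (e.symm (e ⟨y, hy⟩)).1
      rw [Equiv.symm_apply_apply, Equiv.symm_apply_apply]
      exact hxy
    have h2 := IsWellFounded.rank_lt_of_rel h1
    simp only [R, dif_pos hx, dif_pos hy]
    exact h2
  refine ⟨R, fun x hx y hy => ⟨⟨key x hx y hy, fun h => ?_⟩, fun h => ?_⟩⟩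
  · rcases Prec.tri hA hx hy with h1 | h1 | h1
    · exact h1
    · rw [h1] at h
      exact absurd h (lt_irrefl _)
    · exact absurd (h.trans (key y hy x hx h1)) (lt_irrefl _)
  · rcases Prec.tri hA hx hy with h1 | h1 | h1
    · have h2 := key x hx y hy h1
      rw [h] at h2
      exact absurd h2 (lt_irrefl _)
    · exact h1
    · have h2 := key y hy x hx h1
      rw [h] at h2
      exact absurd h2 (lt_irrefl _)

end Pool.Agent.Helper73.HN.RK
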